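import Pool.Agent.Y97.FD.Stm

set_option autoImplicit false

namespace Pool.Agent.Y419.FD

open Cardinal

theorem emb_complex (κ : Type) [Field κ] [CharZero κ] [Countable κ] : Nonempty (κ →+* ℂ) := by
  let R := MvPolynomial ℝ κ
  let K := FractionRing R
  let M := AlgebraicClosure K
  have hR : #R = 𝔠 := by
    rw [MvPolynomial.cardinalMk_eq_max, Cardinal.mk_real]
    have h1 : #κ ≤ ℵ₀ := Cardinal.mk_le_aleph0
    have h2 : (ℵ₀ : Cardinal.{0}) ≤ 𝔠 := Cardinal.aleph0_le_continuum
    rw [max_eq_right (h1.trans h2), max_eq_left h2]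
  have hK : #K = 𝔠 := by
    rw [← hR]
    exact IsFractionRing.cardinalMk R K
  have hM : #M = 𝔠 := by
    apply le_antisymm
    · have h1 := Algebra.IsAlgebraic.cardinalMk_le_max K M
      rw [hK, max_eq_left Cardinal.aleph0_le_continuum] at h1
      exact h1
    · rw [← hK]
      exact Cardinal.mk_le_of_injective (algebraMap K M).injective
  have hch : CharZero M := by
    have h1 : CharZero R := by infer_instance
    have h2 : CharZero K := IsFractionRing.charZero R
    infer_instance
  have h3 : Nonempty (M ≃ ℂ) := by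
    rw [← Cardinal.eq, hM, Cardinal.mk_complex]
  obtain ⟨e⟩ := IsAlgClosed.ringEquiv_of_equiv_of_charZero
    (by rw [hM]; exact Cardinal.aleph0_lt_continuum) h3
  exact ⟨e.toRingHom.comp ((algebraMap K M).comp ((algebraMap R K).comp MvPolynomial.C))⟩

theorem jobA : Pool.Agent.Y97.FD.JobA := by
  intro σ _ I hI
  obtain ⟨m, hm, hIm⟩ := Ideal.exists_le_maximal I hI
  let κ := MvPolynomial σ ℚ ⧸ m
  let hfield : Field κ := Ideal.Quotient.field m
  have hc : Countable (MvPolynomial σ ℚ) := by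
    rw [← Cardinal.mk_le_aleph0_iff]
    refine MvPolynomial.cardinalMk_le_max.trans ?_
    simp only [max_le_iff]
    exact ⟨⟨Cardinal.mk_le_aleph0, Cardinal.mk_le_aleph0⟩, le_rfl⟩
  have hcκ : Countable κ := Ideal.Quotient.mk_surjective.countable
  have hchar : CharZero κ := algebraRat.charZero κ
  obtain ⟨φ⟩ := emb_complex κ
  let ψ : MvPolynomial σ ℚ →ₐ[ℚ] ℂ := (φ.comp (Ideal.Quotient.mk m)).toRatAlgHom
  refine ⟨fun s => ψ (MvPolynomial.X s), fun p hp => ?_⟩
  have h1 : MvPolynomial.aeval (fun s => ψ (MvPolynomial.X s)) = ψ :=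
    (MvPolynomial.aeval_unique ψ).symm
  rw [h1]
  change φ (Ideal.Quotient.mk m p) = 0
  rw [Ideal.Quotient.eq_zero_iff_mem.mpr (hIm hp), map_zero]

end Pool.Agent.Y419.FD
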