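import Pool.Agent.Y97.FD.Stm

set_option autoImplicit false

namespace Pool.Agent.Y419.FD

open IntermediateField TensorProduct

theorem push0 (E F O : Type) [Field E] [Field F] [Field O] [Algebra E F] [Algebra E O] :
    ∃ (Ω : Type) (_ : Field Ω) (a : F →+* Ω) (b : O →+* Ω),
      ∀ x : E, a (algebraMap E F x) = b (algebraMap E O x) := by
  obtain ⟨m, hm⟩ := Ideal.exists_maximal (F ⊗[E] O)
  let tl : F →ₐ[E] (F ⊗[E] O) := Algebra.TensorProduct.includeLeft
  let tr : O →ₐ[E] (F ⊗[E] O) := Algebra.TensorProduct.includeRight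
  let q : (F ⊗[E] O) →+* ((F ⊗[E] O) ⧸ m) := Ideal.Quotient.mk m
  refine ⟨(F ⊗[E] O) ⧸ m, Ideal.Quotient.field m, q.comp tl.toRingHom, q.comp tr.toRingHom, ?_⟩
  intro x
  change q (tl (algebraMap E F x)) = q (tr (algebraMap E O x))
  rw [tl.commutes, tr.commutes]

theorem push {F : Type} [Field F] (L : Subfield F) (f : F) (O : Type) [Field O] (i : F →+* O)
    (j : (L⟮f⟯) →+* O) (hj : ∀ l : L, j (algebraMap L (L⟮f⟯) l) = i l)
    (hne : j (AdjoinSimple.gen L f) ≠ i f) :
    ∃ (Ω : Type) (_ : Field Ω) (s t : F →+* Ω), (∀ l ∈ L, s l = t l) ∧ s f ≠ t f := by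
  let hA : Algebra (L⟮f⟯) O := j.toAlgebra
  obtain ⟨Ω, hΩ, a, b, hab⟩ := push0 (L⟮f⟯) F O
  refine ⟨Ω, hΩ, b.comp i, a, ?_, ?_⟩
  · intro l hl
    have h1 := hab (algebraMap L (L⟮f⟯) ⟨l, hl⟩)
    have h2 : algebraMap (L⟮f⟯) O (algebraMap L (L⟮f⟯) ⟨l, hl⟩) = i l := hj ⟨l, hl⟩
    rw [h2] at h1
    exact h1.symm
  · intro h
    have h1 := hab (AdjoinSimple.gen L f)
    have h2 : b (i f) = b (j (AdjoinSimple.gen L f)) := h.trans h1
    exact hne (b.injective h2).symm

theorem jobB : Pool.Agent.Y97.FD.JobB := by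
  intro F _ _ L f h
  by_contra hf
  suffices hsuff : ∃ (Ω : Type) (_ : Field Ω) (s t : F →+* Ω), (∀ l ∈ L, s l = t l) ∧ s f ≠ t f by
    obtain ⟨Ω, hΩ, s, t, h1, h2⟩ := hsuff
    exact h2 (h Ω s t h1)
  by_cases hint : IsIntegral L f
  · -- algebraic case
    have hfd : FiniteDimensional L (L⟮f⟯) := adjoin.finiteDimensional hint
    have hrank : Module.finrank L (L⟮f⟯) ≠ 1 := by
      intro h1
      rw [finrank_adjoin_simple_eq_one_iff, mem_bot] at h1
      obtain ⟨x, hx⟩ := h1
      apply hf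
      rw [← hx]
      exact x.2
    have hcard := AlgHom.card L (L⟮f⟯) (AlgebraicClosure F)
    have hpos : 0 < Module.finrank L (L⟮f⟯) := Module.finrank_pos
    have h2 : 1 < Fintype.card ((L⟮f⟯) →ₐ[L] AlgebraicClosure F) := by omega
    let i0 : (L⟮f⟯) →ₐ[L] AlgebraicClosure F :=
      (IsScalarTower.toAlgHom L F (AlgebraicClosure F)).comp (L⟮f⟯).val
    obtain ⟨j, hj⟩ := Fintype.exists_ne_of_one_lt_card h2 i0
    apply push L f (AlgebraicClosure F) (algebraMap F (AlgebraicClosure F)) j.toRingHom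
    · intro l
      exact j.commutes l
    · intro heq
      apply hj
      apply IntermediateField.adjoin_algHom_ext L
      intro x hx
      obtain rfl : x = f := hx
      exact heq
  · -- transcendental case
    have htr : Transcendental L f := fun h1 => hint h1.isIntegral
    have htr' : Transcendental L (f + 1) := by
      intro h1
      apply htr
      have h2 : f = (f + 1) - algebraMap L F 1 := by simp
      rw [h2]
      exact h1.sub (isAlgebraic_algebraMap (1 : L))
    let e1 := RatFunc.algEquivOfTranscendental f htr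
    let e2 := RatFunc.algEquivOfTranscendental (f + 1) htr'
    let j : (L⟮f⟯) →ₐ[L] F := ((L⟮f + 1⟯).val.comp e2.toAlgHom).comp e1.symm.toAlgHom
    apply push L f F (RingHom.id F) j.toRingHom
    · intro l
      exact j.commutes l
    · have h1 : j (AdjoinSimple.gen L f) = f + 1 := by
        change ((e2 (e1.symm (AdjoinSimple.gen L f)) : L⟮f + 1⟯) : F) = f + 1
        rw [RatFunc.algEquivOfTranscendental_symm_gen]
        exact RatFunc.algEquivOfTranscendental_X _ _
      intro h2
      have h3 : f + 1 = f := h1.symm.trans h2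
      simp at h3

end Pool.Agent.Y419.FD
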