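import Pool.Agent.Y97.FD.Stm
import Pool.Agent.W522.U.B1

set_option autoImplicit false

universe u

namespace Pool.Agent.Y419.FD

open Matrix Module

variable {F : Type u} [Field F]

theorem conj_apply {ι : Type} [Fintype ι] [DecidableEq ι] (G : Matrix ι ι F) (w : ι → ι → F)
    (i j : ι) : ((Matrix.of fun a b => w b a).transpose * G * (Matrix.of fun a b => w b a)) i j
      = Matrix.toBilin' G (w i) (w j) := by
  rw [Matrix.toBilin'_apply, Matrix.mul_apply]
  simp only [Matrix.mul_apply, Matrix.transpose_apply, Matrix.of_apply, Finset.sum_mul]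
  rw [Finset.sum_comm]

theorem sym_case [CharZero F] [IsAlgClosed F] (ι : Type) [Fintype ι] [DecidableEq ι]
    (G : Matrix ι ι F) (hG : G.transpose = G) (hd : G.det ≠ 0) :
    ∃ S : Matrix ι ι F, S.det ≠ 0 ∧ S.transpose * G * S = 1 := by
  have hsym : LinearMap.IsSymm (Matrix.toBilin' G) := by
    constructor
    intro x y
    rw [Matrix.toBilin'_apply, Matrix.toBilin'_apply, Finset.sum_comm]
    apply Finset.sum_congr rfl
    intro i _
    apply Finset.sum_congr rfl
    intro j _
    have : G i j = G j i := by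
      conv_lhs => rw [← hG]
      rfl
    simp only [this]
    ring
  have hnd : (Matrix.toBilin' G).Nondegenerate :=
    LinearMap.BilinForm.nondegenerate_toBilin'_iff_det_ne_zero.mpr hd
  have h2 : Invertible (2 : F) := invertibleOfNonzero two_ne_zero
  obtain ⟨v, hv⟩ := LinearMap.BilinForm.exists_orthogonal_basis hsym
  have hv0 : ∀ i, Matrix.toBilin' G (v i) (v i) ≠ 0 := by
    intro i h0
    have hne : v i ≠ 0 := v.ne_zero i
    apply hne
    apply hnd.1
    intro y
    rw [← v.sum_repr y, map_sum]
    apply Finset.sum_eq_zero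
    intro j _
    rw [map_smul]
    by_cases hij : i = j
    · subst hij
      rw [h0, smul_zero]
    · have : Matrix.toBilin' G (v i) (v j) = 0 := hv hij
      rw [this, smul_zero]
  have hc : ∀ i, ∃ c : F, c ^ 2 = (Matrix.toBilin' G (v i) (v i))⁻¹ := fun i =>
    IsAlgClosed.exists_pow_nat_eq _ (by norm_num)
  choose c hc using hc
  have hcard : Fintype.card ι = Fintype.card (Fin (finrank F (ι → F))) := by
    rw [Fintype.card_fin, finrank_fintype_fun_eq_card]
  let e : ι ≃ Fin (finrank F (ι → F)) := Fintype.equivOfCardEq hcard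
  let w : ι → ι → F := fun i => c (e i) • v (e i)
  have hS : (Matrix.of fun a b => w b a).transpose * G * (Matrix.of fun a b => w b a) = 1 := by
    ext i j
    rw [conj_apply]
    simp only [w, map_smul, LinearMap.smul_apply, smul_eq_mul]
    by_cases hij : i = j
    · subst hij
      rw [Matrix.one_apply_eq]
      have h1 := hc (e i)
      have h3 := hv0 (e i)
      calc c (e i) * (c (e i) * (Matrix.toBilin' G (v (e i))) (v (e i)))
          = c (e i) ^ 2 * (Matrix.toBilin' G (v (e i))) (v (e i)) := by ring
        _ = 1 := by rw [h1, inv_mul_cancel₀ h3]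
    · rw [Matrix.one_apply_ne hij]
      have : Matrix.toBilin' G (v (e i)) (v (e j)) = 0 := hv (fun h => hij (e.injective h))
      rw [this, mul_zero, mul_zero]
  refine ⟨_, ?_, hS⟩
  intro h0
  have h1 := congrArg Matrix.det hS
  rw [Matrix.det_mul, Matrix.det_mul, h0, mul_zero, Matrix.det_one] at h1
  exact zero_ne_one h1

theorem alt_case [CharZero F] (ι : Type) [Fintype ι] [DecidableEq ι]
    (G : Matrix ι ι F) (hG : G.transpose = -G) (hd : G.det ≠ 0) :
      ∃ (m : ℕ) (e : ι ≃ Fin m × Bool) (S : Matrix ι ι F), S.det ≠ 0 ∧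
        ∀ i j, (S.transpose * G * S) i j =
          if (e i).1 = (e j).1 then (if (e i).2 = false ∧ (e j).2 = true then 1
            else if (e i).2 = true ∧ (e j).2 = false then -1 else 0) else 0 := by
  have hGa : ∀ i j, G i j = - G j i := by
    intro i j
    have := congrFun (congrFun hG j) i
    rw [Matrix.transpose_apply, Matrix.neg_apply] at this
    exact this
  have hsk : ∀ x y, Matrix.toBilin' G x y = - Matrix.toBilin' G y x := by
    intro x y
    rw [Matrix.toBilin'_apply, Matrix.toBilin'_apply, Finset.sum_comm, ← Finset.sum_neg_distrib]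
    apply Finset.sum_congr rfl
    intro i _
    rw [← Finset.sum_neg_distrib]
    apply Finset.sum_congr rfl
    intro j _
    rw [hGa j i]
    ring
  have halt : ∀ x, Matrix.toBilin' G x x = 0 := by
    intro x
    have h := hsk x x
    have h2 : (2 : F) * Matrix.toBilin' G x x = 0 := by linear_combination h
    exact (mul_eq_zero.mp h2).resolve_left two_ne_zero
  have hnd : (Matrix.toBilin' G).Nondegenerate :=
    LinearMap.BilinForm.nondegenerate_toBilin'_iff_det_ne_zero.mpr hd
  obtain ⟨m, v, _, _, _, h3, h4⟩ := Pool.Agent.W522.U.exists_sb (Matrix.toBilin' G) hsk halt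
    (fun _ : Unit => (⊤ : Submodule F (ι → F))) (fun x => x) (fun _ => rfl)
    (fun c d h => absurd rfl h) hnd.1 (by simp)
  -- the vectors
  let w : Fin m × Bool → ι → F := fun p => if p.2 = false then v (Sum.inl p.1) else
    (Matrix.toBilin' G (v (Sum.inl p.1)) (v (Sum.inr p.1)))⁻¹ • v (Sum.inr p.1)
  have hcard : Fintype.card ι = Fintype.card (Fin m × Bool) := by
    have h5 := Module.finrank_eq_card_basis v
    rw [finrank_fintype_fun_eq_card] at h5
    rw [h5]
    simp
    ring
  let e : ι ≃ Fin m × Bool := Fintype.equivOfCardEq hcard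
  have hw : ∀ p q : Fin m × Bool, Matrix.toBilin' G (w p) (w q) =
      if p.1 = q.1 then (if p.2 = false ∧ q.2 = true then 1
            else if p.2 = true ∧ q.2 = false then -1 else 0) else 0 := by
    rintro ⟨p, a⟩ ⟨q, b⟩
    have hne : ∀ k : Fin m, Matrix.toBilin' G (v (Sum.inl k)) (v (Sum.inr k)) ≠ 0 := fun k =>
      h4 (Sum.inl k)
    have hll : ∀ k l : Fin m, Matrix.toBilin' G (v (Sum.inl k)) (v (Sum.inl l)) = 0 := fun k l =>
      h3 _ _ (by simp)
    have hrr : ∀ k l : Fin m, Matrix.toBilin' G (v (Sum.inr k)) (v (Sum.inr l)) = 0 := fun k l =>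
      h3 _ _ (by simp)
    have hlr : ∀ k l : Fin m, k ≠ l → Matrix.toBilin' G (v (Sum.inl k)) (v (Sum.inr l)) = 0 :=
      fun k l h => h3 _ _ (by simpa using Ne.symm h)
    cases a <;> cases b
    · simp [w, hll]
    · by_cases hpq : p = q
      · subst hpq
        simp [w, hne p]
      · simp [w, hlr p q hpq, hpq]
    · by_cases hpq : p = q
      · subst hpq
        have := hne p
        have e1 : w (p, true) = (Matrix.toBilin' G (v (Sum.inl p)) (v (Sum.inr p)))⁻¹ •
          v (Sum.inr p) := if_neg (by simp)
        have e2 : w (p, false) = v (Sum.inl p) := if_pos rfl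
        rw [e1, e2, map_smul, LinearMap.smul_apply, smul_eq_mul,
          hsk (v (Sum.inr p)) (v (Sum.inl p)), mul_neg, inv_mul_cancel₀ this]
        simp
      · have h6 : Matrix.toBilin' G (v (Sum.inr p)) (v (Sum.inl q)) = 0 := by
          rw [hsk, hlr q p (Ne.symm hpq), neg_zero]
        simp [w, h6, hpq]
    · simp [w, hrr]
  have hS : ∀ i j, ((Matrix.of fun a b => w (e b) a).transpose * G *
      (Matrix.of fun a b => w (e b) a)) i j =
      if (e i).1 = (e j).1 then (if (e i).2 = false ∧ (e j).2 = true then 1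
            else if (e i).2 = true ∧ (e j).2 = false then -1 else 0) else 0 := by
    intro i j
    rw [conj_apply G (fun i => w (e i))]
    exact hw (e i) (e j)
  refine ⟨m, e, Matrix.of fun a b => w (e b) a, ?_, hS⟩
  intro h0
  obtain ⟨x, hx0, hx⟩ := Matrix.exists_mulVec_eq_zero_iff.mpr h0
  apply hx0
  funext j
  -- the partner of `j`
  set i : ι := e.symm ((e j).1, !(e j).2) with hi
  have hei : e i = ((e j).1, !(e j).2) := by rw [hi, Equiv.apply_symm_apply]
  have h7 : ((Matrix.of fun a b => w (e b) a).transpose * G *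
      (Matrix.of fun a b => w (e b) a)) *ᵥ x = 0 := by
    rw [← Matrix.mulVec_mulVec, hx, Matrix.mulVec_zero]
  have h8 := congrFun h7 i
  rw [Matrix.mulVec, dotProduct] at h8
  simp only [hS] at h8
  rw [Finset.sum_eq_single j] at h8
  · rw [hei] at h8
    simp only [if_true] at h8
    rw [Pi.zero_apply]
    cases hb : (e j).2 with
    | false =>
      rw [hb] at h8
      simpa using h8
    | true =>
      rw [hb] at h8
      simpa using h8
  · intro k _ hk
    rw [hei]
    have h9 : ¬ ((e j).1 = (e k).1 ∧ (e j).2 = (e k).2) := by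
      rintro ⟨h10, h11⟩
      exact hk (e.injective (Prod.ext h10 h11)).symm
    by_cases h12 : (e j).1 = (e k).1
    · have h13 : (e j).2 ≠ (e k).2 := fun h => h9 ⟨h12, h⟩
      rw [if_pos h12]
      cases hb : (e j).2 <;> cases hb' : (e k).2
      · exact absurd (hb.trans hb'.symm) h13
      · simp
      · simp
      · exact absurd (hb.trans hb'.symm) h13
    · rw [if_neg h12, zero_mul]
  · intro h
    exact absurd (Finset.mem_univ j) h

theorem jobC : Pool.Agent.Y97.FD.JobC.{u} := by
  intro F _ _ _
  exact ⟨fun ι _ _ G h1 h2 => sym_case ι G h1 h2, fun ι _ _ G h1 h2 => alt_case ι G h1 h2⟩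

end Pool.Agent.Y419.FD
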